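import Pool.Agent.H66.Mot.Defs
import Pool.Agent.H39.MonoR.A
import Pool.Agent.H39.MonoR.B1

/-!
# The strong motivic monodromy conjecture: from the constructed ring `M_k` to all class functions
-/

set_option autoImplicit false

namespace Pool.Mot

open MvPolynomial
open Pool.Agent.H39

section

variable {k : Type} [Field k] [Algebra k ℂ]

theorem isCons_iff {ι : Type} {A : Set (ι → ℂ)} : MonoR.IsCons k A ↔ IsCons k A := by
  constructor
  · intro h
    induction h with
    | zero p => exact IsCons.zero p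
    | compl _ ih => exact IsCons.compl ih
    | inter _ _ h1 h2 => exact IsCons.inter h1 h2
  · intro h
    induction h with
    | zero p => exact MonoR.IsCons.zero p
    | compl _ ih => exact MonoR.IsCons.compl ih
    | inter _ _ h1 h2 => exact MonoR.IsCons.inter h1 h2

variable {R : Type 1} [CommRing R] {cl : ∀ ι : Type, Set (ι → ℂ) → R} {L : Rˣ}

variable (k cl) in
/-- the class function on the polynomial ring -/
noncomputable def psi0 : MvPolynomial (MonoR.CSet k) ℤ →+* R :=
  eval₂Hom (Int.castRingHom R) (fun A => cl A.ι A.X)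

theorem psi0_X (A : MonoR.CSet k) : psi0 k cl (X A) = cl A.ι A.X := by
  unfold psi0
  rw [coe_eval₂Hom, eval₂_X]

theorem psi0_rel (h : IsMotivic k cl L) {r : MvPolynomial (MonoR.CSet k) ℤ}
    (hr : MonoR.Rel k r) : psi0 k cl r = 0 := by
  cases hr with
  | add hι A B hA hB hAB hd =>
    rw [map_sub, map_sub, psi0_X, psi0_X, psi0_X]
    change cl _ (A ∪ B) - cl _ A - cl _ B = 0
    rw [h.add _ A B hι (isCons_iff.mp hA) (isCons_iff.mp hB) hd]
    ring
  | bij A B p hb =>
    rw [map_sub, psi0_X, psi0_X,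
      h.bij A.ι B.ι A.X B.X p A.fin B.fin (isCons_iff.mp A.cons) (isCons_iff.mp B.cons) hb, sub_self]
  | mul A B hAB hf =>
    rw [map_sub, map_mul, psi0_X, psi0_X, psi0_X]
    change cl (A.ι ⊕ B.ι) {x | (fun i => x (Sum.inl i)) ∈ A.X ∧ (fun i => x (Sum.inr i)) ∈ B.X} -
      cl A.ι A.X * cl B.ι B.X = 0
    rw [h.mul A.ι B.ι A.X B.X A.fin B.fin (isCons_iff.mp A.cons) (isCons_iff.mp B.cons), sub_self]
  | one h1 =>
    rw [map_sub, map_one, psi0_X]
    change cl Empty Set.univ - 1 = 0
    rw [h.one, sub_self]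

/-- the class function on the Grothendieck ring -/
noncomputable def psi (h : IsMotivic k cl L) : MonoR.K0 k →+* R :=
  Ideal.Quotient.lift (Ideal.span {r | MonoR.Rel k r}) (psi0 k cl) (fun a ha => by
    have h1 : Ideal.span {r | MonoR.Rel k r} ≤ RingHom.ker (psi0 k cl) :=
      Ideal.span_le.mpr (fun r hr => psi0_rel h hr)
    exact h1 ha)

theorem psi_mk (h : IsMotivic k cl L) (r : MvPolynomial (MonoR.CSet k) ℤ) :
    psi h (MonoR.mkK k r) = psi0 k cl r := rfl

theorem psi_cl (h : IsMotivic k cl L) {ι : Type} [Finite ι] {A : Set (ι → ℂ)}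
    (hA : MonoR.IsCons k A) : psi h (MonoR.cl k A) = cl ι A := by
  rw [MonoR.cl_of_cons hA, psi_mk, psi0_X]

theorem psi_L (h : IsMotivic k cl L) : psi h (MonoR.L k) = L := by
  unfold MonoR.L
  rw [psi_cl h MonoR.IsCons.univ, h.line]

/-- the class function on the localised Grothendieck ring -/
noncomputable def phi (h : IsMotivic k cl L) : MonoR.M k →+* R :=
  IsLocalization.Away.lift (MonoR.L k) (g := psi h) (by rw [psi_L]; exact L.isUnit)

theorem phi_algebraMap (h : IsMotivic k cl L) (x : MonoR.K0 k) :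
    phi h (algebraMap (MonoR.K0 k) (MonoR.M k) x) = psi h x :=
  IsLocalization.Away.lift_eq _ _ _

theorem phi_mot (h : IsMotivic k cl L) {ι : Type} [Finite ι] {A : Set (ι → ℂ)}
    (hA : MonoR.IsCons k A) : phi h (MonoR.mot k A) = cl ι A := by
  unfold MonoR.mot
  rw [phi_algebraMap, psi_cl h hA]

theorem phi_Lu (h : IsMotivic k cl L) :
    Units.map (phi h : MonoR.M k →* R) (MonoR.Lu k) = L := by
  ext
  change phi h ((MonoR.Lu k : (MonoR.M k)ˣ) : MonoR.M k) = L
  have h1 : ((MonoR.Lu k : (MonoR.M k)ˣ) : MonoR.M k) =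
      algebraMap (MonoR.K0 k) (MonoR.M k) (MonoR.L k) := rfl
  rw [h1, phi_algebraMap, psi_L]

theorem phi_Lu_zpow (h : IsMotivic k cl L) (a : ℤ) :
    phi h ((MonoR.Lu k ^ a : (MonoR.M k)ˣ) : MonoR.M k) = ((L ^ a : Rˣ) : R) := by
  have h1 : Units.map (phi h : MonoR.M k →* R) (MonoR.Lu k ^ a) = L ^ a := by
    rw [map_zpow, phi_Lu]
  exact congrArg (fun u : Rˣ => (u : R)) h1

variable {σ : Type}

theorem arcs_eq (d : ℕ) (f : MvPolynomial σ k) : MonoR.Y k (d + 1) 1 f = arcs d f := by
  ext φ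
  constructor
  · intro h l hl
    have h1 := h l (Nat.lt_succ_of_le hl)
    rw [map_one] at h1
    have h2 : (if l + 1 = d + 1 then (1 : ℂ) else 0) = if l = d then 1 else 0 := by
      simp only [Nat.add_right_cancel_iff]
    rw [h2] at h1
    exact h1
  · intro h l hl
    have h1 := h l (Nat.le_of_lt_succ hl)
    rw [map_one]
    have h2 : (if l + 1 = d + 1 then (1 : ℂ) else 0) = if l = d then 1 else 0 := by
      simp only [Nat.add_right_cancel_iff]
    rw [h2]
    exact h1

theorem map_Zmot (h : IsMotivic k cl L) [Finite σ] (f : MvPolynomial σ k) :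
    PowerSeries.map (phi h) (MonoR.Zmot k f) = Zmot cl L f := by
  ext d
  unfold MonoR.Zmot Zmot
  rw [PowerSeries.coeff_map, PowerSeries.coeff_mk, PowerSeries.coeff_mk, map_mul,
    phi_mot h (MonoR.isCons_Y (d + 1) 1 f), phi_Lu_zpow, arcs_eq]
  congr 2
  rw [zpow_neg, zpow_natCast, inv_pow]

theorem map_RS (h : IsMotivic k cl L) {S : Set (ℤ × ℕ)} {z : PowerSeries (MonoR.M k)}
    (hz : z ∈ MonoR.RS k S) : PowerSeries.map (phi h) z ∈ RS L S := by
  unfold MonoR.RS at hz
  induction hz using Algebra.adjoin_induction with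
  | mem x hx =>
    apply Algebra.subset_adjoin
    rcases hx with hx | ⟨p, hp, hx⟩
    · left
      rw [Set.mem_singleton_iff] at hx
      rw [hx, PowerSeries.map_X]
      rfl
    · right
      refine ⟨p, hp, ?_⟩
      have h1 := congrArg (PowerSeries.map (phi h)) hx
      unfold MonoR.den at h1
      rw [map_mul, map_sub, map_one, map_mul, map_pow, PowerSeries.map_X, PowerSeries.map_C,
        phi_Lu_zpow] at h1
      exact h1
  | algebraMap r =>
    have h1 : PowerSeries.map (phi h) (algebraMap (MonoR.M k) (PowerSeries (MonoR.M k)) r) =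
        algebraMap R (PowerSeries R) (phi h r) := by
      change PowerSeries.map (phi h) (PowerSeries.C r) = PowerSeries.C (phi h r)
      rw [PowerSeries.map_C]
    rw [h1]
    exact Subalgebra.algebraMap_mem _ _
  | add x y _ _ hx hy =>
    rw [map_add]
    exact Subalgebra.add_mem _ hx hy
  | mul x y _ _ hx hy =>
    rw [map_mul]
    exact Subalgebra.mul_mem _ hx hy

theorem zetaIn_of (R : Type 1) [CommRing R] [Finite σ] {f : MvPolynomial σ k} {S : Set (ℤ × ℕ)}
    (h : MonoR.Zmot k f ∈ MonoR.RS k S) : ZetaIn R f S := by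
  intro cl L hm
  rw [← map_Zmot hm]
  exact map_RS hm h

/-- The strong form from the statement for the constructed ring `M_k`. -/
theorem strong_of [Finite σ] {f : MvPolynomial σ k}
    (h : ∃ S : Finset (ℤ × ℕ), (∀ p ∈ S, p.1 < 0 ∧ 0 < p.2) ∧
      MonoR.Zmot k f ∈ MonoR.RS k (S : Set (ℤ × ℕ)) ∧ ∀ p ∈ S, MonoR.IsRoot k f (p.1 / p.2)) :
    Strong k f := by
  obtain ⟨S, h1, h2, h3⟩ := h
  exact ⟨S, fun p hp => ⟨(h1 p hp).1, (h1 p hp).2, h3 p hp⟩, fun R _ => zetaIn_of R h2⟩

end

end Pool.Mot
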