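import Mathlib

/-!
# The strong motivic monodromy conjecture for a polynomial (definitions)

`k` is a field with an embedding into `ℂ`, for example a subfield of `ℂ`.

* `IsCons k A`: `A ⊆ ℂ^ι` is constructible and defined over `k`.
* `IsMotivic k cl L`: `cl` assigns to the constructible sets over `k` elements of a commutative ring
  `R`, additively, multiplicatively, invariantly under bijections given by polynomial maps over `k`,
  and the class `L` of the affine line is a unit. The universal case is the class in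
  `M_k = K_0(Var_k)[1/L]`.
* `Zmot cl L f`: the motivic zeta function, with coefficients in `R`.
* `RS L S`: the algebra `R[T, 1/(1 - L^a T^b)]`, `(a,b) ∈ S`.
* `IsRoot k f x`: `x` is a root of the Bernstein-Sato polynomial of `f`.
* `Strong k f`: the strong form of the motivic monodromy conjecture for `f`.
-/

set_option autoImplicit false

namespace Pool.Mot

open MvPolynomial

section

variable (k : Type) [Field k] [Algebra k ℂ]

/-- constructible subsets of `ℂ^ι` defined over `k` -/
inductive IsCons {ι : Type} : Set (ι → ℂ) → Prop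
  | zero (p : MvPolynomial ι k) : IsCons {x | aeval x p = 0}
  | compl {A : Set (ι → ℂ)} : IsCons A → IsCons Aᶜ
  | inter {A B : Set (ι → ℂ)} : IsCons A → IsCons B → IsCons (A ∩ B)

/-- `cl` is a class function on the constructible sets over `k` with values in `R`: additive for
disjoint unions, invariant under bijections given by polynomial maps over `k`, multiplicative, the
class of the point is one, the class of the affine line is the unit `L` -/
structure IsMotivic {R : Type 1} [CommRing R] (cl : ∀ ι : Type, Set (ι → ℂ) → R) (L : Rˣ) :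
    Prop where
  add : ∀ (ι : Type) (A B : Set (ι → ℂ)), Finite ι → IsCons k A → IsCons k B → Disjoint A B →
    cl ι (A ∪ B) = cl ι A + cl ι B
  bij : ∀ (ι κ : Type) (A : Set (ι → ℂ)) (B : Set (κ → ℂ)) (p : κ → MvPolynomial ι k),
    Finite ι → Finite κ → IsCons k A → IsCons k B →
    Set.BijOn (fun x j => aeval x (p j)) A B → cl ι A = cl κ B
  mul : ∀ (ι κ : Type) (A : Set (ι → ℂ)) (B : Set (κ → ℂ)),
    Finite ι → Finite κ → IsCons k A → IsCons k B →
    cl (ι ⊕ κ) {x | (fun i => x (Sum.inl i)) ∈ A ∧ (fun i => x (Sum.inr i)) ∈ B} = cl ι A * cl κ B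
  one : cl Empty Set.univ = 1
  line : cl Unit Set.univ = L

variable {k} {σ : Type}

/-- the arcs `φ mod t^(d+1)` with `f(φ) ≡ t^d mod t^(d+1)` -/
def arcs (d : ℕ) (f : MvPolynomial σ k) : Set (σ × Fin (d + 1) → ℂ) :=
  {φ | ∀ l ≤ d, PowerSeries.coeff l (aeval
    (fun j => ∑ i : Fin (d + 1), PowerSeries.C (φ (j, i)) * PowerSeries.X ^ (i : ℕ)) f) =
      if l = d then 1 else 0}

variable {R : Type 1} [CommRing R] (cl : ∀ ι : Type, Set (ι → ℂ) → R) (L : Rˣ)

/-- the motivic zeta function: the coefficient of `T^d` is `[X_{d,1}] L^{-md}`, `m` the number of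
variables -/
noncomputable def Zmot (f : MvPolynomial σ k) : PowerSeries R :=
  PowerSeries.mk fun d => cl (σ × Fin (d + 1)) (arcs d f) * ↑(L⁻¹ ^ (Nat.card σ * d))

/-- the algebra `R[T, 1/(1 - L^a T^b)]`, `(a,b) ∈ S` -/
noncomputable def RS (S : Set (ℤ × ℕ)) : Subalgebra R (PowerSeries R) :=
  Algebra.adjoin R ({PowerSeries.X} ∪
    {g | ∃ p ∈ S, g * (1 - PowerSeries.C ((L ^ p.1 : Rˣ) : R) * PowerSeries.X ^ p.2) = 1})

variable (R)

/-- the motivic zeta function is in `R[T, 1/(1 - L^a T^b)]`, `(a,b) ∈ S`, for every class function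
with values in `R` -/
def ZetaIn (f : MvPolynomial σ k) (S : Set (ℤ × ℕ)) : Prop :=
  ∀ (cl : ∀ ι : Type, Set (ι → ℂ) → R) (L : Rˣ), IsMotivic k cl L → Zmot cl L f ∈ RS L S

end

section

variable {k : Type} [Field k] {σ : Type}

/-- differential operators on `k[x]`: the algebra generated by the multiplications and the derivations
(the Weyl algebra) -/
def IsDiffOp (T : Module.End k (MvPolynomial σ k)) : Prop :=
  T ∈ Algebra.adjoin k ({T | ∃ g : MvPolynomial σ k, T = LinearMap.mulLeft k g} ∪
    {T | ∃ D : Derivation k (MvPolynomial σ k) (MvPolynomial σ k), T = (D : _ →ₗ[k] _)})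

/-- `b` satisfies a functional equation `P(s) f^{s+1} = b(s) f^s` with a differential operator
`P(s) = ∑ s^i P_i`; as both sides are polynomial in `s`, this means that it holds for all natural
numbers `s = n` -/
def IsBS (f : MvPolynomial σ k) (b : Polynomial k) : Prop :=
  ∃ (d : ℕ) (P : ℕ → Module.End k (MvPolynomial σ k)), (∀ i, IsDiffOp (P i)) ∧ ∀ n : ℕ,
    ∑ i ∈ Finset.range d, (n : k) ^ i • P i (f ^ (n + 1)) = b.eval (n : k) • f ^ n

/-- `x` is a root of the Bernstein-Sato polynomial of `f` -/
def IsRoot (f : MvPolynomial σ k) (x : ℚ) : Prop :=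
  ∀ b : Polynomial k, IsBS f b → b.eval (x : k) = 0

end

/-- the strong form of the motivic monodromy conjecture for `f`, with the roots of the Bernstein-Sato
polynomial in place of the monodromy eigenvalues -/
def Strong (k : Type) [Field k] [Algebra k ℂ] {σ : Type} (f : MvPolynomial σ k) : Prop :=
  ∃ S : Finset (ℤ × ℕ), (∀ p ∈ S, p.1 < 0 ∧ 0 < p.2 ∧ IsRoot f (p.1 / p.2)) ∧
    ∀ (R : Type 1) [CommRing R], ZetaIn R f (S : Set (ℤ × ℕ))

end Pool.Mot
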