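import Pool.Agent.H66.Mot.Bridge
import Pool.Agent.H75.Idl.FIV

/-!
# Polynomials of degree at most one in all but two variables (proof of helper75's hand-in)
-/

set_option autoImplicit false

namespace Pool.Mot

open MvPolynomial
open Pool.Agent.H39

/-- **The strong motivic monodromy conjecture for polynomials of degree at most one in all variables but
`x_i` and `x_j`.** -/
theorem linear_old (k : Subfield ℂ) (hk : IsAlgClosed k) (n : ℕ) (i j : Fin n) (hij : i ≠ j)
    (f : MvPolynomial (Fin n) k)
    (hf : ∀ m ∈ f.support, ∑ l ∈ Finset.univ.filter (fun l => l ≠ i ∧ l ≠ j), m l ≤ 1)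
    (hc : ∃ l, pderiv l f ≠ 0) :
    ∃ S : Finset (ℤ × ℕ), (∀ p ∈ S, p.1 < 0 ∧ 0 < p.2) ∧
      MonoR.Zmot k f ∈ MonoR.RS k (S : Set (ℤ × ℕ)) ∧ ∀ p ∈ S, MonoR.IsRoot k f (p.1 / p.2) := by
  classical
  set A : Finset (Fin n) := Finset.univ.filter (fun l => l ≠ i ∧ l ≠ j) with hA
  -- the numbering of the variables
  let w : Fin 2 ⊕ Fin A.card → Fin n :=
    Sum.elim ![i, j] (fun l => (A.equivFin.symm l : Fin n))
  have hmem : ∀ l : Fin A.card, w (Sum.inr l) ≠ i ∧ w (Sum.inr l) ≠ j := fun l => by
    have h1 : w (Sum.inr l) ∈ A := (A.equivFin.symm l).2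
    exact (Finset.mem_filter.1 h1).2
  have hw : Function.Bijective w := by
    constructor
    · rintro (a | a) (b | b) h
      · congr 1
        fin_cases a <;> fin_cases b <;> first | rfl | exact absurd h hij | exact absurd h.symm hij
      · have h1 := hmem b
        rw [← h] at h1
        fin_cases a
        · exact absurd rfl h1.1
        · exact absurd rfl h1.2
      · have h1 := hmem a
        rw [h] at h1
        fin_cases b
        · exact absurd rfl h1.1
        · exact absurd rfl h1.2
      · have h1 : A.equivFin.symm a = A.equivFin.symm b := Subtype.ext h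
        rw [A.equivFin.symm.injective h1]
    · intro l
      by_cases h1 : l = i
      · exact ⟨Sum.inl 0, h1.symm⟩
      by_cases h2 : l = j
      · exact ⟨Sum.inl 1, h2.symm⟩
      have h3 : l ∈ A := by
        rw [hA, Finset.mem_filter]
        exact ⟨Finset.mem_univ l, h1, h2⟩
      refine ⟨Sum.inr (A.equivFin ⟨l, h3⟩), ?_⟩
      show ((A.equivFin.symm (A.equivFin ⟨l, h3⟩) : A) : Fin n) = l
      rw [Equiv.symm_apply_apply]
  let e : Fin 2 ⊕ Fin A.card ≃ Fin n := Equiv.ofBijective w hw
  have he : rename e (rename e.symm f) = f := by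
    rw [rename_rename]
    have : (e ∘ e.symm : Fin n → Fin n) = id := by
      ext l
      simp
    rw [this, rename_id_apply]
  have h1 : Pool.Agent.H75.Mono.Nc (rename e.symm f) := by
    obtain ⟨l, hl⟩ := hc
    refine ⟨e.symm l, fun h => hl ?_⟩
    rw [pderiv_rename e.symm.injective] at h
    exact (map_eq_zero_iff _ (rename_injective _ e.symm.injective)).1 h
  have h2 : ∀ m, coeff m (rename e.symm f) ≠ 0 → ∑ l : Fin A.card, m (Sum.inr l) ≤ 1 := by
    intro m hm
    obtain ⟨m', rfl, hm'⟩ := coeff_rename_ne_zero _ _ _ hm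
    have h3 := hf m' (mem_support_iff.2 hm')
    have h4 : ∀ l : Fin A.card, (Finsupp.mapDomain e.symm m') (Sum.inr l) =
        m' (A.equivFin.symm l : Fin n) := by
      intro l
      have : (Sum.inr l : Fin 2 ⊕ Fin A.card) = e.symm (A.equivFin.symm l : Fin n) := by
        rw [Equiv.eq_symm_apply]
        rfl
      rw [this, Finsupp.mapDomain_apply e.symm.injective]
    simp only [h4]
    have h5 : ∑ l : Fin A.card, m' (A.equivFin.symm l : Fin n) = ∑ l ∈ A, m' l := by
      rw [← Finset.sum_coe_sort A, ← Equiv.sum_comp A.equivFin.symm]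
    rw [h5]
    exact h3
  have h3 := Pool.Agent.H75.Mono.linear_main h1 h2 e.injective
  rwa [he] at h3

theorem linear_families (k : Subfield ℂ) (hk : IsAlgClosed k) (n : ℕ) (i j : Fin n) (hij : i ≠ j)
    (f : MvPolynomial (Fin n) k) (hf : ∀ m ∈ f.support, ∑ l with l ≠ i ∧ l ≠ j, m l ≤ 1)
    (hc : ∃ l, pderiv l f ≠ 0) : Strong k f :=
  strong_of (linear_old k hk n i j hij f hf hc)

end Pool.Mot
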