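import Pool.Agent.H66.Mot.NDefs
import Pool.Agent.H66.Mot.Bridge
import Pool.Agent.H39.Newt5.FIN

/-!
# Simplicial Newton polyhedra: from the definitions for a polynomial over `k ⊆ ℂ` to those for its set
of exponents
-/

set_option autoImplicit false

namespace Pool.Mot

open MvPolynomial

theorem exists_pderiv_ne_zero {k : Type} [Field k] [CharZero k] {n : ℕ} {f : MvPolynomial (Fin n) k}
    (hf : ∀ c, f ≠ C c) : ∃ l, pderiv l f ≠ 0 := by
  by_contra hcon
  push Not at hcon
  apply hf (f.coeff 0)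
  ext m
  rw [coeff_C]
  split_ifs with h0
  · rw [h0]
  · obtain ⟨l, hl⟩ : ∃ l, m l ≠ 0 := by
      by_contra h1
      push Not at h1
      exact h0 (Finsupp.ext (fun l => (h1 l).symm))
    have h1 := congrArg (coeff (m - Finsupp.single l 1)) (hcon l)
    rw [coeff_pderiv, coeff_zero] at h1
    have h2 : m - Finsupp.single l 1 + Finsupp.single l 1 = m := by
      ext j
      by_cases hj : j = l
      · subst hj
        simp
        omega
      · simp [Ne.symm hj]
    rw [h2] at h1
    rcases mul_eq_zero.mp h1 with h3 | h3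
    · exact h3
    · exfalso
      exact Nat.cast_add_one_ne_zero (R := k) _ h3

theorem algInd_congr {n : ℕ} {A B : Finset (Fin n →₀ ℕ)} {c d : (Fin n →₀ ℕ) → ℂ} (hA : A = B)
    (hc : ∀ m, c m = d m) (h : AlgebraicIndependent ℚ (fun m : A => c m.1)) :
    AlgebraicIndependent ℚ (fun m : B => d m.1) := by
  subst hA
  obtain rfl : c = d := funext hc
  exact h

theorem generic_congr {n : ℕ} {A B : Finset (Fin n →₀ ℕ)} {c d : (Fin n →₀ ℕ) → ℂ} (hA : A = B)
    (hc : ∀ m, c m = d m)
    (h : LinearIndependent ℚ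
      (fun v : {v : A → ℤ // ∑ m, v m = 0 ∧ ∀ l, ∑ m, v m * ((m.1 l : ℕ) : ℤ) = 0} =>
        ∏ m, c m.1 ^ v.1 m)) :
    LinearIndependent ℚ
      (fun v : {v : B → ℤ // ∑ m, v m = 0 ∧ ∀ l, ∑ m, v m * ((m.1 l : ℕ) : ℤ) = 0} =>
        ∏ m, d m.1 ^ v.1 m) := by
  subst hA
  obtain rfl : c = d := funext hc
  exact h

section

variable {k : Subfield ℂ} {n : ℕ} {f : MvPolynomial (Fin n) k} {g : MvPolynomial (Fin n) ℂ}

theorem supp_eq (hg : g = map (algebraMap k ℂ) f) : g.support = f.support := by
  rw [hg]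
  exact support_map_of_injective f (algebraMap k ℂ).injective

theorem coeff_eq (hg : g = map (algebraMap k ℂ) f) (m : Fin n →₀ ℕ) :
    g.coeff m = ((f.coeff m : k) : ℂ) := by
  rw [hg, coeff_map]
  rfl

theorem facePoly_eq (hg : g = map (algebraMap k ℂ) f) (w : Fin n → ℕ) :
    facePoly w g = map (algebraMap k ℂ) (Newt5.HI.facePoly f w) := by
  classical
  unfold facePoly Newt5.HI.facePoly
  rw [map_sum, supp_eq hg]
  refine Finset.sum_congr rfl (fun m _ => ?_)
  rw [map_monomial, coeff_eq hg]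
  rfl

theorem nondegenerate_of (hg : g = map (algebraMap k ℂ) f) (h : Nondegenerate g) :
    Newt5.HI.Nondegenerate f := by
  intro u z hz h0
  have e : ∀ p : MvPolynomial (Fin n) k, aeval z p = eval z (map (algebraMap k ℂ) p) := by
    intro p
    rw [eval_map]
    rfl
  obtain ⟨l, hl⟩ := h u z hz (by rw [facePoly_eq hg, ← e]; exact h0)
  refine ⟨l, ?_⟩
  rw [e, ← pderiv_map, ← facePoly_eq hg]
  exact hl

theorem generic_of (hg : g = map (algebraMap k ℂ) f) (h : Generic g) : Newt.HI.Generic f :=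
  generic_congr (A := g.support) (B := f.support) (c := fun m => g.coeff m)
    (d := fun m => ((f.coeff m : k) : ℂ)) (supp_eq hg) (coeff_eq hg) h

theorem veryGeneral_of (hg : g = map (algebraMap k ℂ) f) (h : VeryGeneral g) :
    Newt.HI.Generic f := by
  rcases h with h | h | h
  · rw [supp_eq hg] at h
    exact Newt.HI.generic_of_affineIndependent h
  · exact Newt.HI.generic_of_algebraicIndependent (algInd_congr (A := g.support)
      (B := f.support) (c := fun m => g.coeff m) (d := fun m => ((f.coeff m : k) : ℂ))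
      (supp_eq hg) (coeff_eq hg) h)
  · exact generic_of hg h

theorem newton (hg : g = map (algebraMap k ℂ) f) (hf : ∀ c, g ≠ C c)
    (hn : Nondegenerate g ∨ VeryGeneral g) (V : Set (Fin n →₀ ℕ)) (hV : Hull g.support V)
    (hB : ∀ w, Rigid g.support w → 0 < N g.support w →
      ∑ l, w l = N g.support w ∨
      SimplicialFrom g.support w ∨
      Labelled g.support V w ∨
      (VeryGeneral g ∧ (Simplicial g.support V w ∨ ∃ w', Good g.support w' ∧ 0 < N g.support w' ∧
        (∑ l, w l) * N g.support w' = (∑ l, w' l) * N g.support w))) :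
    Strong k f := by
  apply strong_of
  have hf' : ∀ c, f ≠ C c := by
    intro c hc
    apply hf (algebraMap k ℂ c)
    rw [hg, hc, map_C]
  rw [supp_eq hg] at hV hB
  refine Newt.newton5_main f (exists_pderiv_ne_zero hf') V hV
    (hn.imp (nondegenerate_of hg) (veryGeneral_of hg)) fun w h1 h2 => ?_
  rcases hB w h1 h2 with h | h | h | ⟨h3, h | h⟩
  · exact Or.inl h
  · exact Or.inr (Or.inl h)
  · exact Or.inr (Or.inr (Or.inl h))
  · exact Or.inr (Or.inr (Or.inr ⟨veryGeneral_of hg h3, Or.inr h⟩))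
  · exact Or.inr (Or.inr (Or.inr ⟨veryGeneral_of hg h3, Or.inl h⟩))

end

end Pool.Mot
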