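import Mathlib

/-!
# Newton polyhedra (definitions)

`A` is the set of exponents of a polynomial in `n` variables, `w ∈ ℕ^n` a weight.
-/

set_option autoImplicit false

namespace Pool.Mot

open MvPolynomial

variable {n : ℕ} (A : Finset (Fin n →₀ ℕ)) (V : Set (Fin n →₀ ℕ)) (w w' : Fin n → ℕ)

/-- the minimum of `w · m` on the exponents -/
noncomputable def N : ℕ := sInf {d | ∃ m ∈ A, d = ∑ l, w l * m l}

/-- the exponents on the face of the weight `w` -/
def Face : Set (Fin n →₀ ℕ) := {m | m ∈ A ∧ ∑ l, w l * m l = N A w}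

/-- the vectors in `s` are affinely independent -/
def AffInd (s : Set (Fin n →₀ ℕ)) : Prop :=
  AffineIndependent ℚ (fun (m : s) (l : Fin n) => (m.1 l : ℚ))

/-- the columns with `w l ≠ 0` of the matrix with rows `m ∈ s` are linearly independent -/
def Columns (s : Set (Fin n →₀ ℕ)) : Prop :=
  LinearIndependent ℚ (fun (l : {l // w l ≠ 0}) (m : s) => (m.1 l : ℚ))

/-- `w` is a normal vector of a facet of the Newton polyhedron -/
def Rigid : Prop := Columns w (Face A w)

/-- for an affinely independent subset of the face of `w` the columns with `w l ≠ 0` are linearly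
independent, and none of them is a unit vector -/
def Good : Prop :=
  ∃ s : Set (Fin n →₀ ℕ), s ⊆ Face A w ∧ AffInd s ∧ Columns w s ∧
    ∀ l, w l ≠ 0 → ¬ ∃ m ∈ s, m l = 1 ∧ ∀ m' ∈ s, m' ≠ m → m' l = 0

/-- `w'` is the normal vector of a facet with `N(w') > 0` and with the ratio `|w'|/N(w') = |w|/N(w)` -/
def Same : Prop := Rigid A w' ∧ 0 < N A w' ∧ (∑ l, w l) * N A w' = (∑ l, w' l) * N A w

/-- `w'` is the normal vector of a facet with `N(w') > 0` and with a ratio `|w'|/N(w') ≥ |w|/N(w)` -/
def Above : Prop := Rigid A w' ∧ 0 < N A w' ∧ (∑ l, w l) * N A w' ≤ (∑ l, w' l) * N A w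

/-- the exponents are in the convex hull of the subset `V` -/
def Hull : Prop :=
  V ⊆ A ∧ ∀ m ∈ A, (fun l => (m l : ℚ)) ∈
    convexHull ℚ ((fun (m : Fin n →₀ ℕ) (l : Fin n) => (m l : ℚ)) '' V)

/-- the exponents from `V` on each facet of the same ratio are affinely independent -/
def Simplicial : Prop := ∀ w', Same A w w' → AffInd (Face A w' ∩ V)

/-- the exponents on each facet of the same or a bigger ratio are affinely independent -/
def SimplicialFrom : Prop := ∀ w', Above A w w' → AffInd (Face A w')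

/-- the facets of the same ratio are B1-facets with compatible apices: `Y` is a set of exponents with
coordinates `l(m)` such that `m_{l(m)} = 1`; each of the facets contains an apex `m ∈ Y` of height one
over the coordinate hyperplane `l(m)`, and every `m ∈ Y` on it is not in the affine span of the other
exponents from `V` on it -/
def Labelled : Prop :=
  ∃ (Y : Set (Fin n →₀ ℕ)) (l : (Fin n →₀ ℕ) → Fin n), Y ⊆ V ∧ (∀ m ∈ Y, m (l m) = 1) ∧
    ∀ w', Same A w w' →
      (∃ m ∈ Y, m ∈ Face A w' ∧ w' (l m) ≠ 0 ∧ ∀ m' ∈ Face A w', m' ∈ V → m' ≠ m → m' (l m) = 0) ∧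
      ∀ m ∈ Y, m ∈ Face A w' → (fun j => (m j : ℚ)) ∉ affineSpan ℚ {x : Fin n → ℚ |
        ∃ m' ∈ Face A w', m' ∈ V ∧ m' ≠ m ∧ x = fun j => (m' j : ℚ)}

variable (g : MvPolynomial (Fin n) ℂ)

open Classical in
/-- the face polynomial -/
noncomputable def facePoly : MvPolynomial (Fin n) ℂ :=
  ∑ m ∈ g.support.filter (fun m => m ∈ Face g.support w), monomial m (g.coeff m)

/-- `g` and its face polynomials are smooth on `(ℂ*)^n` -/
def Nondegenerate : Prop :=
  ∀ (w : Fin n → ℕ) (z : Fin n → ℂ), (∀ j, z j ≠ 0) → eval z (facePoly w g) = 0 →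
    ∃ l, eval z (pderiv l (facePoly w g)) ≠ 0

/-- the numbers `∏ c_m^(v_m)`, `v` an integral affine relation between the exponents, are linearly
independent over `ℚ` -/
def Generic : Prop :=
  LinearIndependent ℚ
    (fun v : {v : g.support → ℤ // ∑ m, v m = 0 ∧ ∀ l, ∑ m, v m * ((m.1 l : ℕ) : ℤ) = 0} =>
      ∏ m, g.coeff m.1 ^ v.1 m)

/-- the exponents of `g` are affinely independent, or its coefficients are algebraically independent
over `ℚ`, or `g` is `Generic` (this contains both) -/
def VeryGeneral : Prop :=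
  AffInd (n := n) g.support ∨ AlgebraicIndependent ℚ (fun m : g.support => g.coeff m.1) ∨ Generic g

end Pool.Mot
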