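import Pool.Agent.H66.Mot.Bridge

/-!
# The class function with values in the constructed ring `M_k`
-/

set_option autoImplicit false

namespace Pool.Mot

open MvPolynomial
open Pool.Agent.H39

variable {k : Type} [Field k] [Algebra k ℂ]

variable (k) in
open Classical in
/-- the class in `M_k` -/
noncomputable def clM (ι : Type) (A : Set (ι → ℂ)) : MonoR.M k :=
  if h : Finite ι then @MonoR.mot k _ _ ι h A else 0

theorem clM_eq {ι : Type} [h : Finite ι] (A : Set (ι → ℂ)) : clM k ι A = MonoR.mot k A := by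
  unfold clM
  rw [dif_pos h]

theorem isMotivic_M : IsMotivic k (clM k) (MonoR.Lu k) where
  add ι A B hι hA hB hd := by
    rw [clM_eq, clM_eq, clM_eq]
    unfold MonoR.mot
    rw [MonoR.cl_union (isCons_iff.mpr hA) (isCons_iff.mpr hB) hd, map_add]
  bij ι κ A B p hι hκ hA hB hb := by
    rw [clM_eq, clM_eq]
    unfold MonoR.mot
    rw [MonoR.cl_bij (isCons_iff.mpr hA) (isCons_iff.mpr hB) p hb]
  mul ι κ A B hι hκ hA hB := by
    rw [clM_eq, clM_eq, clM_eq]
    unfold MonoR.mot
    rw [MonoR.cl_prod (isCons_iff.mpr hA) (isCons_iff.mpr hB), map_mul]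
  one := by
    rw [clM_eq]
    unfold MonoR.mot
    rw [MonoR.cl_univ_empty, map_one]
  line := by
    rw [clM_eq]
    rfl

theorem Zmot_M {σ : Type} [Finite σ] (f : MvPolynomial σ k) :
    Zmot (clM k) (MonoR.Lu k) f = MonoR.Zmot k f := by
  ext d
  unfold MonoR.Zmot Zmot
  rw [PowerSeries.coeff_mk, PowerSeries.coeff_mk, clM_eq, arcs_eq]
  congr 2
  rw [zpow_neg, zpow_natCast, inv_pow]

theorem RS_M (S : Set (ℤ × ℕ)) : RS (MonoR.Lu k) S = MonoR.RS k S := rfl

/-- The zeta function is in `R[T, 1/(1 - L^a T^b)]` for all class functions if and only if it is for the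
class in the constructed ring `M_k`. -/
theorem zetaIn_iff {σ : Type} [Finite σ] {f : MvPolynomial σ k} {S : Set (ℤ × ℕ)} :
    (∀ (R : Type 1) [CommRing R], ZetaIn R f S) ↔ MonoR.Zmot k f ∈ MonoR.RS k S := by
  constructor
  · intro h
    have h1 := h (MonoR.M k) (clM k) (MonoR.Lu k) isMotivic_M
    rw [Zmot_M, RS_M] at h1
    exact h1
  · intro h R _
    exact zetaIn_of R h

end Pool.Mot
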